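import Mathlib
import Pool.Agent.TH304.MI.Stm

/-!
# MI: a set with zero divergence in the direction `y` is cylindrical (job 3779, helper986)
-/

set_option autoImplicit false

open MeasureTheory Set Metric Filter Topology
open scoped ENNReal Real

noncomputable section

namespace Pool.Agent.TH986.MI.Cyl

open Pool.Agent.TH304.MI

variable {b : ℕ}

/-- the embedding of the last coordinates -/
def io (h : Fin b → ℝ) : PP b := WithLp.toLp 2 (Fin.cons 0 (Fin.cons 0 h))

lemma xc_io (h : Fin b → ℝ) : xc (io h) = 0 := by
  apply Complex.ext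
  · rfl
  · show (Fin.cons 0 (Fin.cons 0 h) : Fin (b + 2) → ℝ) 1 = 0
    rw [← Fin.succ_zero_eq_one, Fin.cons_succ, Fin.cons_zero]

lemma yc_io (h : Fin b → ℝ) : yc (io h) = h := by
  funext i
  show (Fin.cons 0 (Fin.cons 0 h) : Fin (b + 2) → ℝ) i.succ.succ = h i
  rw [Fin.cons_succ, Fin.cons_succ]

lemma xc_add (p q : PP b) : xc (p + q) = xc p + xc q := by
  apply Complex.ext <;> rfl

lemma yc_add (p q : PP b) : yc (p + q) = yc p + yc q := rfl

lemma io_cont : Continuous (io : (Fin b → ℝ) → PP b) := by
  unfold io
  apply (PiLp.continuous_toLp 2 _).comp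
  apply continuous_pi
  intro i
  refine Fin.cases ?_ (fun j => ?_) i
  · simp only [Fin.cons_zero]
    exact continuous_const
  · refine Fin.cases ?_ (fun k => ?_) j
    · simp only [Fin.cons_succ, Fin.cons_zero]
      exact continuous_const
    · simp only [Fin.cons_succ]
      exact continuous_apply k

lemma vol_fin (hgeo : S_geo) : volume (Om b) < ⊤ :=
  (hgeo b).2.2.1.measure_lt_top

/-- the hypothesis on the set -/
def Dz (E0 : Set (PP b)) : Prop :=
  ∀ φ : PP b → PP b, ContDiff ℝ 1 φ → HasCompactSupport φ → tsupport φ ⊆ Om b →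
    (∀ p, xc (φ p) = 0) → ∫ x in E0, dv φ x = 0

/-- integrals of translates -/
lemma shift_int (hgeo : S_geo) (E0 : Set (PP b)) (hEO : E0 ⊆ Om b)
    (hdz : Dz E0) (H : PP b) (hH : xc H = 0) (g : PP b → ℝ) (hg : ContDiff ℝ 1 g)
    (hgc : HasCompactSupport g) (hgs : tsupport g ⊆ Om b ∩ {p | p + H ∈ Om b}) :
    ∫ p in E0, g (p - H) = ∫ p in E0, g p := by
  have hfinE : volume E0 < ⊤ := (measure_mono hEO).trans_lt (vol_fin hgeo)
  have : IsFiniteMeasure (volume.restrict E0) := ⟨by rwa [Measure.restrict_apply_univ]⟩
  obtain ⟨M0, hM0⟩ := hg.continuous.bounded_above_of_compact_support hgc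
  obtain ⟨M1, hM1⟩ := (hg.continuous_fderiv one_ne_zero).bounded_above_of_compact_support
    (hgc.fderiv (𝕜 := ℝ))
  have hgd : Differentiable ℝ g := hg.differentiable one_ne_zero
  have hder : ∀ t ∈ Icc (0 : ℝ) 1,
      HasDerivAt (fun t : ℝ => ∫ p in E0, g (p - t • H)) 0 t := by
    intro t ht
    have hline : ∀ (p : PP b) (s : ℝ),
        HasDerivAt (fun s : ℝ => g (p - s • H)) (-(fderiv ℝ g (p - s • H) H)) s := by
      intro p s
      have h1 : HasDerivAt (fun s : ℝ => p - s • H) (-H) s := by
        have h2 := ((hasDerivAt_id s).smul_const H).const_sub p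
        simpa using h2
      have h3 := (hgd (p - s • H)).hasFDerivAt.comp_hasDerivAt s h1
      rw [map_neg] at h3
      exact h3
    have key := hasDerivAt_integral_of_dominated_loc_of_deriv_le (μ := volume.restrict E0)
      (F := fun (s : ℝ) (p : PP b) => g (p - s • H))
      (F' := fun (s : ℝ) (p : PP b) => -(fderiv ℝ g (p - s • H) H)) (x₀ := t)
      (s := univ) (bound := fun _ => M1 * ‖H‖) univ_mem
      (Eventually.of_forall fun s =>
        (hg.continuous.comp (continuous_id.sub continuous_const)).aestronglyMeasurable)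
      (Integrable.of_bound
        (hg.continuous.comp (continuous_id.sub continuous_const)).aestronglyMeasurable M0
        (Eventually.of_forall fun p => hM0 _))
      ((((hg.continuous_fderiv one_ne_zero).comp (continuous_id.sub continuous_const)).clm_apply
        continuous_const).neg.aestronglyMeasurable)
      (Eventually.of_forall fun p s _ => by
        rw [norm_neg]
        exact (ContinuousLinearMap.le_opNorm _ _).trans
          (mul_le_mul_of_nonneg_right (hM1 _) (norm_nonneg _)))
      (integrable_const _)
      (Eventually.of_forall fun p s _ => hline p s)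
    have h0 : ∫ p in E0, -(fderiv ℝ g (p - t • H) H) = 0 := by
      rw [integral_neg, neg_eq_zero]
      have h1 : ∀ p : PP b, dv (fun p : PP b => g (p - t • H) • H) p =
          fderiv ℝ g (p - t • H) H := by
        intro p
        have h2 : HasFDerivAt (fun p : PP b => g (p - t • H) • H)
            ((fderiv ℝ g (p - t • H)).smulRight H) p := by
          have h3 : HasFDerivAt (fun p : PP b => g (p - t • H)) (fderiv ℝ g (p - t • H)) p := by
            have h4 := (hgd (p - t • H)).hasFDerivAt.comp p
              ((hasFDerivAt_id p).sub_const (t • H))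
            rw [ContinuousLinearMap.comp_id] at h4
            exact h4
          exact h3.smul_const H
        unfold dv
        rw [h2.fderiv]
        exact LinearMap.trace_smulRight _ _
      have h5 := hdz (fun p : PP b => g (p - t • H) • H)
        ((hg.comp (contDiff_id.sub contDiff_const)).smul contDiff_const)
        (by
          apply HasCompactSupport.intro (hgc.isCompact.image (continuous_id.add
            (continuous_const (y := t • H))))
          intro p hp
          have h6 : g (p - t • H) = 0 := by
            by_contra h7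
            apply hp
            refine ⟨p - t • H, subset_tsupport g h7, ?_⟩
            simp
          rw [h6, zero_smul])
        (by
          have hcl : IsClosed {p : PP b | p - t • H ∈ tsupport g} :=
            (isClosed_tsupport g).preimage (continuous_id.sub continuous_const)
          have hsub : tsupport (fun p : PP b => g (p - t • H) • H) ⊆
              {p : PP b | p - t • H ∈ tsupport g} := by
            apply closure_minimal _ hcl
            intro p hp
            apply subset_tsupport g
            intro h6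
            apply hp
            simp only [h6, zero_smul]
          refine hsub.trans ?_
          intro p hp
          obtain ⟨h6, h7⟩ := hgs hp
          have h8 := (hgeo b).2.1 h6 h7 (sub_nonneg.2 ht.2) ht.1 (by ring)
          have h9 : (1 - t) • (p - t • H) + t • (p - t • H + H) = p := by
            rw [smul_add, ← add_assoc, ← add_smul]
            simp
          rw [h9] at h8
          exact h8)
        (by
          intro p
          have h6 : xc (g (p - t • H) • H) = (g (p - t • H) : ℂ) * xc H := by
            apply Complex.ext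
            · show g (p - t • H) * H 0 = _
              rw [Complex.re_ofReal_mul]
              rfl
            · show g (p - t • H) * H 1 = _
              rw [Complex.im_ofReal_mul]
              rfl
          rw [h6, hH, mul_zero])
      simp only [h1] at h5
      exact h5
    have h10 := key.2
    rw [h0] at h10
    exact h10
  have hconst := constant_of_has_deriv_right_zero
    (f := fun t : ℝ => ∫ p in E0, g (p - t • H)) (a := 0) (b := 1)
    (fun t ht => (hder t ht).continuousAt.continuousWithinAt)
    (fun t ht => (hder t ⟨ht.1, ht.2.le⟩).hasDerivWithinAt) 1 ⟨zero_le_one, le_rfl⟩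
  simpa using hconst

lemma inv_ae (hgeo : S_geo) (E0 : Set (PP b)) (hE : MeasurableSet E0) (hEO : E0 ⊆ Om b)
    (hdz : Dz E0) (H : PP b) (hH : xc H = 0) :
    ∀ᵐ p : PP b, p ∈ Om b → p + H ∈ Om b → (p + H ∈ E0 ↔ p ∈ E0) := by
  have hfinE : volume E0 < ⊤ := (measure_mono hEO).trans_lt (vol_fin hgeo)
  have hU : IsOpen (Om b ∩ {p : PP b | p + H ∈ Om b}) :=
    (hgeo b).1.inter ((hgeo b).1.preimage (continuous_id.add continuous_const))
  have hind : Integrable (E0.indicator (fun _ : PP b => (1 : ℝ))) := by
    rw [integrable_indicator_iff hE]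
    exact integrableOn_const hfinE.ne
  have hind2 : Integrable (fun p : PP b => E0.indicator (fun _ => (1 : ℝ)) (p + H)) :=
    hind.comp_add_right H
  have key := hU.ae_eq_zero_of_integral_contDiff_smul_eq_zero (μ := volume)
    (f := fun p : PP b => E0.indicator (fun _ => (1 : ℝ)) (p + H) -
      E0.indicator (fun _ => (1 : ℝ)) p)
    ((hind2.sub hind).locallyIntegrable.locallyIntegrableOn _) (by
      intro g hg hgc hgs
      obtain ⟨M0, hM0⟩ := hg.continuous.bounded_above_of_compact_support hgc
      have hg1 : ContDiff ℝ 1 g := hg.of_le (by exact_mod_cast le_top)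
      have h1 := shift_int hgeo E0 hEO hdz H hH g hg1 hgc hgs
      have i1 : Integrable (fun p : PP b => g p * E0.indicator (fun _ => (1 : ℝ)) (p + H)) :=
        hind2.bdd_mul hg.continuous.aestronglyMeasurable (Eventually.of_forall hM0)
      have i2 : Integrable (fun p : PP b => g p * E0.indicator (fun _ => (1 : ℝ)) p) :=
        hind.bdd_mul hg.continuous.aestronglyMeasurable (Eventually.of_forall hM0)
      have h2 : ∫ p : PP b, g p * E0.indicator (fun _ => (1 : ℝ)) (p + H) =
          ∫ p in E0, g (p - H) := by
        have h3 : (fun p : PP b => g p * E0.indicator (fun _ => (1 : ℝ)) (p + H)) =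
            fun p : PP b => (fun q : PP b => g (q - H) * E0.indicator (fun _ => (1 : ℝ)) q)
              (p + H) := by
          funext p
          simp only [add_sub_cancel_right]
        rw [h3, integral_add_right_eq_self
          (fun q : PP b => g (q - H) * E0.indicator (fun _ => (1 : ℝ)) q) H,
          ← integral_indicator hE]
        congr 1
        funext q
        by_cases hq : q ∈ E0
        · rw [indicator_of_mem hq, indicator_of_mem hq, mul_one]
        · rw [indicator_of_notMem hq, indicator_of_notMem hq, mul_zero]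
      have h4 : ∫ p : PP b, g p * E0.indicator (fun _ => (1 : ℝ)) p = ∫ p in E0, g p := by
        rw [← integral_indicator hE]
        congr 1
        funext q
        by_cases hq : q ∈ E0
        · rw [indicator_of_mem hq, indicator_of_mem hq, mul_one]
        · rw [indicator_of_notMem hq, indicator_of_notMem hq, mul_zero]
      simp only [smul_eq_mul, mul_sub]
      rw [integral_sub i1 i2, h2, h4, h1, sub_self])
  filter_upwards [key] with p hp h1 h2
  have h3 := hp ⟨h1, h2⟩
  by_cases h4 : p + H ∈ E0 <;> by_cases h5 : p ∈ E0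
  · exact ⟨fun _ => h5, fun _ => h4⟩
  · rw [indicator_of_mem h4, indicator_of_notMem h5] at h3
    norm_num at h3
  · rw [indicator_of_notMem h4, indicator_of_mem h5] at h3
    norm_num at h3
  · exact ⟨fun h => absurd h h4, fun h => absurd h h5⟩

end Pool.Agent.TH986.MI.Cyl

open Pool.Agent.TH304.MI Pool.Agent.TH986.MI.Cyl in
theorem Pool.Agent.TH986.MI.t_cyl (hfub : S_fub) (hgeo : S_geo) : S_cyl := by
  intro b E0 hE hEO hdz
  obtain ⟨e, he, hmp⟩ := hfub b
  have hOm : MeasurableSet (Om b) := (hgeo b).1.measurableSet
  -- almost every translate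
  have hmeas : MeasurableSet {z : (Fin b → ℝ) × PP b |
      z.2 ∈ Om b → z.2 + io z.1 ∈ Om b → (z.2 + io z.1 ∈ E0 ↔ z.2 ∈ E0)} := by
    have m1 : Measurable (fun z : (Fin b → ℝ) × PP b => z.2 + io z.1) :=
      (continuous_snd.add (io_cont.comp continuous_fst)).measurable
    have a1 : MeasurableSet {z : (Fin b → ℝ) × PP b | z.2 ∈ Om b} := measurable_snd hOm
    have a2 : MeasurableSet {z : (Fin b → ℝ) × PP b | z.2 + io z.1 ∈ Om b} := m1 hOm
    have a3 : MeasurableSet {z : (Fin b → ℝ) × PP b | z.2 + io z.1 ∈ E0} := m1 hE
    have a4 : MeasurableSet {z : (Fin b → ℝ) × PP b | z.2 ∈ E0} := measurable_snd hE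
    exact a1.imp (a2.imp (a3.iff a4))
  have hC : ∀ᵐ p : PP b, ∀ᵐ h : Fin b → ℝ,
      p ∈ Om b → p + io h ∈ Om b → (p + io h ∈ E0 ↔ p ∈ E0) := by
    rw [← Measure.ae_ae_comm hmeas]
    exact Eventually.of_forall fun h => inv_ae hgeo E0 hE hEO hdz (io h) (xc_io h)
  have hsymm : ∀ (x : ℂ) (y h : Fin b → ℝ), e.symm (x, y) + io h = e.symm (x, y + h) := by
    intro x y h
    apply e.injective
    have h1 : e (e.symm (x, y)) = (x, y) := e.apply_symm_apply _
    rw [he] at h1
    have h2 : xc (e.symm (x, y)) = x := congrArg Prod.fst h1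
    have h3 : yc (e.symm (x, y)) = y := congrArg Prod.snd h1
    rw [e.apply_symm_apply, he, xc_add, yc_add, xc_io, yc_io, add_zero, h2, h3]
  have hD : ∀ᵐ x : ℂ, ∀ᵐ y : Fin b → ℝ, ∀ᵐ y' : Fin b → ℝ,
      e.symm (x, y) ∈ Om b → e.symm (x, y') ∈ Om b →
        (e.symm (x, y') ∈ E0 ↔ e.symm (x, y) ∈ E0) := by
    have h1 : ∀ᵐ z : ℂ × (Fin b → ℝ), ∀ᵐ h : Fin b → ℝ,
        e.symm z ∈ Om b → e.symm z + io h ∈ Om b → (e.symm z + io h ∈ E0 ↔ e.symm z ∈ E0) :=
      (hmp.symm e).quasiMeasurePreserving.ae hC
    have h2 := Measure.ae_ae_of_ae_prod h1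
    filter_upwards [h2] with x hx
    filter_upwards [hx] with y hy
    have h3 := (measurePreserving_sub_right (volume : Measure (Fin b → ℝ)) y).quasiMeasurePreserving.ae hy
    filter_upwards [h3] with y' hy' h4 h5
    rw [hsymm, add_sub_cancel] at hy'
    exact hy' h4 h5
  -- the set
  have hE' : MeasurableSet {z : ℂ × (Fin b → ℝ) | e.symm z ∈ E0} := e.symm.measurable hE
  have hsec : Measurable (fun x : ℂ => volume {y : Fin b → ℝ | e.symm (x, y) ∈ E0}) :=
    measurable_measure_prodMk_left hE'
  have hxy : ∀ (x : ℂ) (y : Fin b → ℝ), xc (e.symm (x, y)) = x := by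
    intro x y
    have h1 : e (e.symm (x, y)) = (x, y) := e.apply_symm_apply _
    rw [he] at h1
    exact congrArg Prod.fst h1
  refine ⟨{x | x ∈ D1 ∧ 0 < volume {y : Fin b → ℝ | e.symm (x, y) ∈ E0}}, ?_, fun x hx => hx.1, ?_⟩
  · exact isOpen_ball.measurableSet.inter (measurableSet_lt measurable_const hsec)
  · obtain ⟨A, hA⟩ : ∃ A : Set ℂ, A =
        {x | x ∈ D1 ∧ 0 < volume {y : Fin b → ℝ | e.symm (x, y) ∈ E0}} := ⟨_, rfl⟩
    rw [← hA]
    have hAm : MeasurableSet A := by
      rw [hA]
      exact isOpen_ball.measurableSet.inter (measurableSet_lt measurable_const hsec)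
    have hcyl : MeasurableSet (cyl b A) := by
      apply hOm.inter
      have hxc : Measurable (fun p : PP b => xc p) := by
        have h1 : (fun p : PP b => xc p) = fun p => (e p).1 := by
          funext p
          rw [he]
        rw [h1]
        exact measurable_fst.comp e.measurable
      exact hxc hAm
    have hS : MeasurableSet (symmDiff E0 (cyl b A)) :=
      (hE.diff hcyl).union (hcyl.diff hE)
    have h1 : volume (symmDiff E0 (cyl b A)) =
        volume {z : ℂ × (Fin b → ℝ) | e.symm z ∈ symmDiff E0 (cyl b A)} := by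
      exact ((hmp.symm e).measure_preimage hS.nullMeasurableSet).symm
    rw [h1, Measure.volume_eq_prod]
    refine (Measure.measure_prod_null (e.symm.measurable hS)).2 ?_
    filter_upwards [hD] with x hx
    show volume {y : Fin b → ℝ | e.symm (x, y) ∈ symmDiff E0 (cyl b A)} = 0
    by_cases hxA : x ∈ A
    · have hpos : 0 < volume {y : Fin b → ℝ | e.symm (x, y) ∈ E0} := by
        rw [hA] at hxA
        exact hxA.2
      obtain ⟨y, hyE, hy⟩ : ∃ y, e.symm (x, y) ∈ E0 ∧ ∀ᵐ y' : Fin b → ℝ,
          e.symm (x, y) ∈ Om b → e.symm (x, y') ∈ Om b →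
            (e.symm (x, y') ∈ E0 ↔ e.symm (x, y) ∈ E0) := by
        by_contra hcon
        apply hpos.ne'
        have h2 : ∀ᵐ y : Fin b → ℝ, ¬ e.symm (x, y) ∈ E0 := by
          filter_upwards [hx] with y hy hyE
          exact hcon ⟨y, hyE, hy⟩
        exact measure_eq_zero_iff_ae_notMem.2 h2
      have h3 : ∀ᵐ y' : Fin b → ℝ, ¬ e.symm (x, y') ∈ symmDiff E0 (cyl b A) := by
        filter_upwards [hy] with y' hy' h4
        rcases h4 with ⟨h5, h6⟩ | ⟨h5, h6⟩
        · apply h6
          refine ⟨hEO h5, ?_⟩
          show xc (e.symm (x, y')) ∈ A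
          rw [hxy]
          exact hxA
        · exact h6 ((hy' (hEO hyE) h5.1).2 hyE)
      exact measure_eq_zero_iff_ae_notMem.2 h3
    · have h2 : {y : Fin b → ℝ | e.symm (x, y) ∈ symmDiff E0 (cyl b A)} ⊆
          {y : Fin b → ℝ | e.symm (x, y) ∈ E0} := by
        intro y hy
        rcases hy with ⟨h5, _⟩ | ⟨h5, _⟩
        · exact h5
        · exfalso
          apply hxA
          have h7 : xc (e.symm (x, y)) ∈ A := h5.2
          rw [hxy] at h7
          exact h7
      apply measure_mono_null h2
      by_cases hxD : x ∈ D1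
      · by_contra h3
        apply hxA
        rw [hA]
        exact ⟨hxD, pos_iff_ne_zero.2 h3⟩
      · have h4 : {y : Fin b → ℝ | e.symm (x, y) ∈ E0} = ∅ := by
          ext y
          simp only [Set.mem_ofPred_eq, mem_empty_iff_false, iff_false]
          intro h5
          apply hxD
          have h6 := (hEO h5).1
          rw [hxy] at h6
          show x ∈ ball (0 : ℂ) 1
          rw [mem_ball_zero_iff]
          exact h6
        rw [h4, measure_empty]
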